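import Pool.Agent.Q324.FO.Main

/-!
# MP_bbe6b0_lc, Q1: no first-order sentence characterises the finite `↓`-posets
-/

namespace Pool.Agent.Results.MP_bbe6b0_lc.NotFirstOrder

open FirstOrder

/-- There is no first-order sentence `φ` in the language of orders (one binary relation symbol, and
equality) such that, for every finite poset `P`, `P ⊨ φ` holds if and only if `P` is a
`↓`-poset. -/
theorem result :
    ¬ ∃ φ : Language.order.Sentence, ∀ (P : Type) (_ : PartialOrder P) (_ : Finite P),
      @Language.Sentence.Realize Language.order P (Language.orderStructure P) φ ↔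
        Pool.Agent.Q324.DP.IsDownPoset ((· ≤ ·) : P → P → Prop) := by
  rintro ⟨φ, h⟩
  obtain ⟨P, h1, h2, h3⟩ := Pool.Agent.Q324.FO.main φ
  exact h3 (h P h1 h2)

end Pool.Agent.Results.MP_bbe6b0_lc.NotFirstOrder
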